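import Mathlib

set_option autoImplicit false

/-!
# Clique partition number against clique cover number (MP_10f644_co): `c* ≤ 1/16`
-/

namespace Pool.Agent.Results.MP_10f644_co.UpperBound16

/-- `F` is a family of cliques of `G`, each with at least two vertices. -/
def IsCliqueFamily {V : Type} (G : SimpleGraph V) (F : Finset (Finset V)) : Prop :=
  ∀ s ∈ F, 2 ≤ s.card ∧ G.IsClique (s : Set V)

/-- Every edge of `G` lies in some member of `F`. -/
def CoversEdges {V : Type} (G : SimpleGraph V) (F : Finset (Finset V)) : Prop :=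
  ∀ u v, G.Adj u v → ∃ s, s ∈ F ∧ u ∈ s ∧ v ∈ s

/-- Every edge of `G` lies in exactly one member of `F`. -/
def PartitionsEdges {V : Type} (G : SimpleGraph V) (F : Finset (Finset V)) : Prop :=
  ∀ u v, G.Adj u v → ∃! s, s ∈ F ∧ u ∈ s ∧ v ∈ s

/-- The edge clique cover number. -/
noncomputable def cc {V : Type} (G : SimpleGraph V) : ℕ :=
  sInf {k | ∃ F : Finset (Finset V), IsCliqueFamily G F ∧ CoversEdges G F ∧ F.card = k}

/-- The clique partition number. -/
noncomputable def cp {V : Type} (G : SimpleGraph V) : ℕ :=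
  sInf {k | ∃ F : Finset (Finset V), IsCliqueFamily G F ∧ PartitionsEdges G F ∧ F.card = k}

/-- The constant `c*` of the problem. -/
noncomputable def cStar : ℝ := sSup {c : ℝ | 0 < c ∧ ∀ N : ℕ, ∃ n : ℕ, N ≤ n ∧
  ∃ G : SimpleGraph (Fin n), G ≠ ⊥ ∧ (cp G : ℝ) / (cc G : ℝ) > c * (n : ℝ) ^ 2}

section proofs

open Finset Classical

/-! ### Statements of the steps -/

/-- M: a matching with `r` edges in a graph of large minimum degree -/
def MatchLem : Prop := ∀ (V : Type) (G : SimpleGraph V) (N : Finset V) (r : ℕ),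
  (∀ u ∈ N, ∃ A : Finset V, (∀ x ∈ A, x ∈ N ∧ G.Adj u x) ∧ 2 * r ≤ A.card + 1) → N.Nonempty →
  ∃ M : Finset (Finset V), M.card = r ∧
    (∀ e ∈ M, e.card = 2 ∧ e ⊆ N ∧ G.IsClique (e : Set V)) ∧
    (∀ e ∈ M, ∀ e' ∈ M, e ≠ e' → Disjoint e e')

/-- X: adding a vertex -/
def Extend : Prop := ∀ (V : Type) (G : SimpleGraph V) (v : V) (N : Finset V)
    (M : Finset (Finset V)) (G' : SimpleGraph V) (F' : Finset (Finset V)),
  (∀ u, G.Adj v u ↔ u ∈ N) →
  (∀ e ∈ M, e.card = 2 ∧ e ⊆ N ∧ G.IsClique (e : Set V)) →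
  (∀ e ∈ M, ∀ e' ∈ M, e ≠ e' → Disjoint e e') →
  (∀ a b, G'.Adj a b ↔ G.Adj a b ∧ a ≠ v ∧ b ≠ v ∧ ∀ e ∈ M, ¬ (a ∈ e ∧ b ∈ e)) →
  IsCliqueFamily G' F' → PartitionsEdges G' F' →
  ∃ F : Finset (Finset V), IsCliqueFamily G F ∧ PartitionsEdges G F ∧
    F.card + M.card ≤ F'.card + N.card

/-- E: the theorem of Erdős, Goodman and Pósa -/
def EGP : Prop := ∀ (V : Type) (s : Finset V) (G : SimpleGraph V),
  (∀ u v, G.Adj u v → u ∈ s) →
  ∃ F : Finset (Finset V), IsCliqueFamily G F ∧ PartitionsEdges G F ∧ F.card ≤ s.card ^ 2 / 4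

/-- L: partition of the vertices into cliques, single edges between different classes -/
def LabelLem : Prop := ∀ (n k : ℕ) (G : SimpleGraph (Fin n)) (L : Fin n → Fin k),
  (∀ u v, u ≠ v → L u = L v → (∃ w, G.Adj u w) → (∃ w, G.Adj v w) → G.Adj u v) →
  ∃ F : Finset (Finset (Fin n)), IsCliqueFamily G F ∧ PartitionsEdges G F ∧
    2 * F.card ≤ 2 * k + ((univ : Finset (Fin n × Fin n)).filter
      (fun p => G.Adj p.1 p.2 ∧ L p.1 ≠ L p.2)).card

/-- T2: graphs covered by two cliques -/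
def Two : Prop := ∀ (n : ℕ) (G : SimpleGraph (Fin n)) (V1 V2 : Finset (Fin n)),
  (∀ u v, G.Adj u v ↔ u ≠ v ∧ ((u ∈ V1 ∧ v ∈ V1) ∨ (u ∈ V2 ∧ v ∈ V2))) →
  ∃ F : Finset (Finset (Fin n)), IsCliqueFamily G F ∧ PartitionsEdges G F ∧
    8 * F.card ≤ n ^ 2 + 16

/-- T3a: graphs covered by three cliques, ordered sizes of the private parts -/
def ThreeOrd : Prop := ∀ (n : ℕ) (G : SimpleGraph (Fin n)) (V1 V2 V3 : Finset (Fin n)),
  (∀ u v, G.Adj u v ↔ u ≠ v ∧ ((u ∈ V1 ∧ v ∈ V1) ∨ (u ∈ V2 ∧ v ∈ V2) ∨ (u ∈ V3 ∧ v ∈ V3))) →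
  ((univ.filter (fun u => u ∉ V1 ∧ u ∉ V2 ∧ u ∈ V3)).card ≤
    (univ.filter (fun u => u ∉ V1 ∧ u ∈ V2 ∧ u ∉ V3)).card) →
  ((univ.filter (fun u => u ∉ V1 ∧ u ∈ V2 ∧ u ∉ V3)).card ≤
    (univ.filter (fun u => u ∈ V1 ∧ u ∉ V2 ∧ u ∉ V3)).card) →
  ∃ F : Finset (Finset (Fin n)), IsCliqueFamily G F ∧ PartitionsEdges G F ∧
    16 * F.card ≤ 3 * n ^ 2 + 64

/-- T3b: graphs covered by three cliques -/
def Three : Prop := ∀ (n : ℕ) (G : SimpleGraph (Fin n)) (V1 V2 V3 : Finset (Fin n)),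
  (∀ u v, G.Adj u v ↔ u ≠ v ∧ ((u ∈ V1 ∧ v ∈ V1) ∨ (u ∈ V2 ∧ v ∈ V2) ∨ (u ∈ V3 ∧ v ∈ V3))) →
  ∃ F : Finset (Finset (Fin n)), IsCliqueFamily G F ∧ PartitionsEdges G F ∧
    16 * F.card ≤ 3 * n ^ 2 + 64

/-- C: counting pairs by types -/
def CountLem : Prop := ∀ (n : ℕ) (r : Fin n → Fin 8) (T : Fin 8 → Fin 8 → Bool),
  ((univ : Finset (Fin n × Fin n)).filter (fun p => T (r p.1) (r p.2) = true)).card
    = ∑ a, ∑ b, if T a b = true then
        (univ.filter (fun u => r u = a)).card * (univ.filter (fun u => r u = b)).card else 0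

/-- I: the inequality -/
def Ineq : Prop := ∀ (x1 x2 x3 y1 y2 y3 z : ℝ), 0 ≤ x3 → x3 ≤ x2 → x2 ≤ x1 → 0 ≤ y1 → 0 ≤ y2 →
  0 ≤ y3 → 0 ≤ z →
    8 * (2 * (x1 * (y2+y3+z) + x2 * (y1+y3+z) + x3 * (y1+y2+z))
      + 3 * (x2 * (y3+z) + x3 * (y2+z) + y1 * (y2+y3+z) + y1 * x3)
      + 3 * (x1 * (y3+z) + x3 * (y1+z) + y2 * (y1+y3+z) + y2 * x3)
      + 2 * (x1 * (y2+z) + x2 * (y1+z) + y3 * (y1+y2+z) + y3 * x2))
    ≤ 15 * (x1 + x2 + x3 + y1 + y2 + y3 + z) ^ 2

/-- the theorem -/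
def Main : Prop :=
  (∀ (n : ℕ) (G : SimpleGraph (Fin n)), G ≠ ⊥ →
    (cp G : ℝ) ≤ ((n : ℝ) ^ 2 / 16 + 3) * (cc G : ℝ)) ∧
  (∀ c : ℝ, (∀ N : ℕ, ∃ n : ℕ, N ≤ n ∧ ∃ G : SimpleGraph (Fin n), G ≠ ⊥ ∧
    (cp G : ℝ) / (cc G : ℝ) > c * (n : ℝ) ^ 2) → c ≤ 1 / 16) ∧
  cStar ≤ 1 / 16

section sM

theorem matchLem : MatchLem := by
  intro V G N r hA hN
  have key : ∀ k : ℕ, k ≤ r → ∃ M : Finset (Finset V), M.card = k ∧
      (∀ e ∈ M, e.card = 2 ∧ e ⊆ N ∧ G.IsClique (e : Set V)) ∧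
      (∀ e ∈ M, ∀ e' ∈ M, e ≠ e' → Disjoint e e') := by
    intro k
    induction k with
    | zero => intro _; exact ⟨∅, by simp, by simp, by simp⟩
    | succ k ih =>
      intro hk
      obtain ⟨M, hM1, hM2, hM3⟩ := ih (by omega)
      set W : Finset V := M.biUnion id with hW
      have hWc : W.card ≤ 2 * k := by
        calc W.card ≤ ∑ e ∈ M, (id e).card := Finset.card_biUnion_le
          _ = ∑ e ∈ M, 2 := Finset.sum_congr rfl fun e he => (hM2 e he).1
          _ = 2 * k := by rw [Finset.sum_const, hM1, smul_eq_mul, mul_comm]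
      have hNc : W.card < N.card := by
        obtain ⟨u0, hu0⟩ := hN
        obtain ⟨A, hA1, hA2⟩ := hA u0 hu0
        have h1 : A ⊆ N.erase u0 := by
          intro x hx
          rw [Finset.mem_erase]
          exact ⟨fun h => G.loopless.irrefl u0 (h ▸ (hA1 x hx).2), (hA1 x hx).1⟩
        have h2 := Finset.card_le_card h1
        rw [Finset.card_erase_of_mem hu0] at h2
        have h3 : 0 < N.card := Finset.card_pos.2 ⟨u0, hu0⟩
        omega
      obtain ⟨u, huN, huW⟩ := Finset.exists_mem_notMem_of_card_lt_card hNc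
      obtain ⟨A, hA1, hA2⟩ := hA u huN
      have hAc : W.card < A.card := by omega
      obtain ⟨x, hxA, hxW⟩ := Finset.exists_mem_notMem_of_card_lt_card hAc
      have hux : u ≠ x := (hA1 x hxA).2.ne
      have hmem : ∀ e ∈ M, ∀ a ∈ e, a ∈ W := fun e he a ha =>
        Finset.mem_biUnion.2 ⟨e, he, ha⟩
      have hdis : ∀ e ∈ M, Disjoint ({u, x} : Finset V) e := by
        intro e he
        rw [Finset.disjoint_left]
        intro a ha hae
        simp only [Finset.mem_insert, Finset.mem_singleton] at ha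
        rcases ha with rfl | rfl
        · exact huW (hmem e he _ hae)
        · exact hxW (hmem e he _ hae)
      have hnot : ({u, x} : Finset V) ∉ M := by
        intro h
        exact huW (hmem _ h u (by simp))
      refine ⟨insert {u, x} M, ?_, ?_, ?_⟩
      · rw [Finset.card_insert_of_notMem hnot, hM1]
      · intro e he
        rcases Finset.mem_insert.1 he with rfl | he
        · refine ⟨Finset.card_pair hux, ?_, ?_⟩
          · intro a ha
            simp only [Finset.mem_insert, Finset.mem_singleton] at ha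
            rcases ha with rfl | rfl
            · exact huN
            · exact (hA1 _ hxA).1
          · intro a ha b hb hab
            simp only [Finset.coe_insert, Finset.coe_singleton, Set.mem_insert_iff,
              Set.mem_singleton_iff] at ha hb
            rcases ha with rfl | rfl <;> rcases hb with rfl | rfl
            · exact absurd rfl hab
            · exact (hA1 _ hxA).2
            · exact (hA1 _ hxA).2.symm
            · exact absurd rfl hab
        · exact hM2 e he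
      · intro e he e' he' hne
        rcases Finset.mem_insert.1 he with rfl | he
        · rcases Finset.mem_insert.1 he' with rfl | he'
          · exact absurd rfl hne
          · exact hdis e' he'
        · rcases Finset.mem_insert.1 he' with rfl | he'
          · exact (hdis e he).symm
          · exact hM3 e he e' he' hne
  exact key r le_rfl

end sM

section sX

/-!
# Extension of a clique partition by a vertex
-/



theorem extend : Extend := by
  intro V G v N M G' F' hN hM hMd hG' hF'c hF'p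
  have hvN : v ∉ N := fun h => G.irrefl ((hN v).mpr h)
  set U : Finset V := M.biUnion id with hU
  have hmemU : ∀ x, x ∈ U ↔ ∃ e ∈ M, x ∈ e := by
    intro x
    rw [hU, Finset.mem_biUnion]
    rfl
  have hUN : U ⊆ N := by
    intro x hx
    obtain ⟨e, he, hxe⟩ := (hmemU x).mp hx
    exact (hM e he).2.1 hxe
  have hUcard : U.card = 2 * M.card := by
    have h1 : (M.biUnion id).card = ∑ e ∈ M, (id e).card :=
      Finset.card_biUnion (fun e he e' he' hne => hMd e he e' he' hne)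
    rw [hU, h1, Finset.sum_congr rfl (fun e he => show (id e).card = 2 from (hM e he).1)]
    rw [Finset.sum_const, smul_eq_mul, mul_comm]
  set F : Finset (Finset V) :=
    F' ∪ M.image (fun e => insert v e) ∪ (N \ U).image (fun u => {v, u}) with hF
  have hmemF : ∀ s, s ∈ F ↔ s ∈ F' ∨ (∃ e, e ∈ M ∧ insert v e = s) ∨
      (∃ u, (u ∈ N ∧ u ∉ U) ∧ ({v, u} : Finset V) = s) := by
    intro s
    simp only [hF, Finset.mem_union, Finset.mem_image, Finset.mem_sdiff]
    exact or_assoc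
  have huniqM : ∀ e ∈ M, ∀ e' ∈ M, ∀ x, x ∈ e → x ∈ e' → e' = e := by
    intro e he e' he' x hx hx'
    by_contra hne
    exact Finset.disjoint_left.mp (hMd e' he' e he hne) hx' hx
  -- members of F' do not contain v
  have hF'v : ∀ s ∈ F', v ∉ s := by
    intro s hs hv
    obtain ⟨h2, hc⟩ := hF'c s hs
    obtain ⟨a, ha, hav⟩ := Finset.exists_mem_ne (by omega : 1 < s.card) v
    have h3 := hc (Finset.mem_coe.mpr hv) (Finset.mem_coe.mpr ha) (Ne.symm hav)
    exact ((hG' v a).mp h3).2.1 rfl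
  -- edges at v
  have key1 : ∀ u ∈ N, ∃ s, (s ∈ F ∧ v ∈ s ∧ u ∈ s) ∧
      ∀ t, t ∈ F → v ∈ t → u ∈ t → t = s := by
    intro u hu
    have huv : u ≠ v := fun h => hvN (h ▸ hu)
    by_cases huU : u ∈ U
    · obtain ⟨e, he, hue⟩ := (hmemU u).mp huU
      refine ⟨insert v e, ⟨(hmemF _).mpr (Or.inr (Or.inl ⟨e, he, rfl⟩)),
        Finset.mem_insert_self _ _, Finset.mem_insert_of_mem hue⟩, ?_⟩
      intro t ht hvt hut
      rcases (hmemF t).mp ht with h | ⟨e', he', rfl⟩ | ⟨u', ⟨-, hu'U⟩, rfl⟩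
      · exact absurd hvt (hF'v t h)
      · rcases Finset.mem_insert.mp hut with h | h
        · exact absurd h huv
        · rw [huniqM e he e' he' u hue h]
      · rcases Finset.mem_insert.mp hut with h | h
        · exact absurd h huv
        · rw [Finset.mem_singleton] at h
          exact absurd (h ▸ huU) hu'U
    · refine ⟨{v, u}, ⟨(hmemF _).mpr (Or.inr (Or.inr ⟨u, ⟨hu, huU⟩, rfl⟩)),
        Finset.mem_insert_self _ _, Finset.mem_insert_of_mem (Finset.mem_singleton_self _)⟩, ?_⟩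
      intro t ht hvt hut
      rcases (hmemF t).mp ht with h | ⟨e', he', rfl⟩ | ⟨u', ⟨-, hu'U⟩, rfl⟩
      · exact absurd hvt (hF'v t h)
      · rcases Finset.mem_insert.mp hut with h | h
        · exact absurd h huv
        · exact absurd ((hmemU u).mpr ⟨e', he', h⟩) huU
      · rcases Finset.mem_insert.mp hut with h | h
        · exact absurd h huv
        · rw [Finset.mem_singleton] at h
          rw [h]
  refine ⟨F, ?_, ?_, ?_⟩
  · intro s hs
    rcases (hmemF s).mp hs with h | ⟨e, he, rfl⟩ | ⟨u, ⟨hu, huU⟩, rfl⟩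
    · obtain ⟨h2, hc⟩ := hF'c s h
      exact ⟨h2, fun a ha b hb hab => ((hG' a b).mp (hc ha hb hab)).1⟩
    · obtain ⟨h2, hsub, hc⟩ := hM e he
      have hve : v ∉ e := fun h => hvN (hsub h)
      refine ⟨by rw [Finset.card_insert_of_notMem hve, h2]; norm_num, ?_⟩
      intro a ha b hb hab
      rw [Finset.mem_coe, Finset.mem_insert] at ha hb
      rcases ha with ha | ha
      · rcases hb with hb | hb
        · exact absurd (ha.trans hb.symm) hab
        · rw [ha]; exact (hN b).mpr (hsub hb)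
      · rcases hb with hb | hb
        · rw [hb]; exact ((hN a).mpr (hsub ha)).symm
        · exact hc (Finset.mem_coe.mpr ha) (Finset.mem_coe.mpr hb) hab
    · have hne : v ≠ u := fun h => hvN (h ▸ hu)
      refine ⟨by rw [Finset.card_pair hne], ?_⟩
      intro a ha b hb hab
      rw [Finset.mem_coe, Finset.mem_insert, Finset.mem_singleton] at ha hb
      rcases ha with ha | ha
      · rcases hb with hb | hb
        · exact absurd (ha.trans hb.symm) hab
        · rw [ha, hb]; exact (hN _).mpr hu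
      · rcases hb with hb | hb
        · rw [ha, hb]; exact ((hN _).mpr hu).symm
        · exact absurd (ha.trans hb.symm) hab
  · intro a b hab
    by_cases hav : a = v
    · rw [hav] at hab ⊢
      obtain ⟨s, hs, hu⟩ := key1 b ((hN b).mp hab)
      exact ⟨s, hs, fun t ht => hu t ht.1 ht.2.1 ht.2.2⟩
    by_cases hbv : b = v
    · rw [hbv] at hab ⊢
      obtain ⟨s, hs, hu⟩ := key1 a ((hN a).mp hab.symm)
      exact ⟨s, ⟨hs.1, hs.2.2, hs.2.1⟩, fun t ht => hu t ht.1 ht.2.2 ht.2.1⟩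
    have hne : a ≠ b := G.ne_of_adj hab
    have hpair : ∀ u', a ∈ ({v, u'} : Finset V) → b ∈ ({v, u'} : Finset V) → False := by
      intro u' h1 h2
      rw [Finset.mem_insert, Finset.mem_singleton] at h1 h2
      rcases h1 with h1 | h1
      · exact hav h1
      · rcases h2 with h2 | h2
        · exact hbv h2
        · exact hne (h1.trans h2.symm)
    by_cases hex : ∃ e ∈ M, a ∈ e ∧ b ∈ e
    · obtain ⟨e, he, hae, hbe⟩ := hex
      refine ⟨insert v e, ⟨(hmemF _).mpr (Or.inr (Or.inl ⟨e, he, rfl⟩)),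
        Finset.mem_insert_of_mem hae, Finset.mem_insert_of_mem hbe⟩, ?_⟩
      rintro t ⟨ht, hat, hbt⟩
      rcases (hmemF t).mp ht with h | ⟨e', he', rfl⟩ | ⟨u', -, rfl⟩
      · have h1 := (hF'c t h).2 (Finset.mem_coe.mpr hat) (Finset.mem_coe.mpr hbt) hne
        exact absurd ⟨hae, hbe⟩ (((hG' a b).mp h1).2.2.2 e he)
      · rcases Finset.mem_insert.mp hat with h | h
        · exact absurd h hav
        · rw [huniqM e he e' he' a hae h]
      · exact (hpair u' hat hbt).elim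
    · have h1 : G'.Adj a b := (hG' a b).mpr ⟨hab, hav, hbv, fun e he h => hex ⟨e, he, h⟩⟩
      obtain ⟨s, ⟨hs, has, hbs⟩, huniq⟩ := hF'p a b h1
      refine ⟨s, ⟨(hmemF _).mpr (Or.inl hs), has, hbs⟩, ?_⟩
      rintro t ⟨ht, hat, hbt⟩
      rcases (hmemF t).mp ht with h | ⟨e', he', rfl⟩ | ⟨u', -, rfl⟩
      · exact huniq t ⟨h, hat, hbt⟩
      · rcases Finset.mem_insert.mp hat with h | h
        · exact absurd h hav
        · rcases Finset.mem_insert.mp hbt with h2 | h2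
          · exact absurd h2 hbv
          · exact absurd ⟨e', he', h, h2⟩ hex
      · exact (hpair u' hat hbt).elim
  · have h1 : F.card ≤ F'.card + M.card + (N \ U).card := by
      refine (Finset.card_union_le _ _).trans ?_
      exact Nat.add_le_add ((Finset.card_union_le _ _).trans
        (Nat.add_le_add_left Finset.card_image_le _)) Finset.card_image_le
    have h2 : (N \ U).card + U.card = N.card := Finset.card_sdiff_add_card_eq_card hUN
    omega

end sX

section sE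

theorem E_num (n d f f' M : ℕ) (hF : f + M ≤ f' + d) (hf' : f' ≤ n ^ 2 / 4)
    (hM : M = d - (n + 1) / 2) : f ≤ (n + 1) ^ 2 / 4 := by
  have h1 : f ≤ n ^ 2 / 4 + (n + 1) / 2 := by omega
  refine h1.trans ?_
  rcases Nat.even_or_odd' n with ⟨k, hk | hk⟩
  · subst hk
    have e1 : (2 * k) ^ 2 / 4 = k ^ 2 := by
      rw [show (2 * k) ^ 2 = 4 * k ^ 2 by ring]; omega
    have e2 : (2 * k + 1) ^ 2 / 4 = k ^ 2 + k := by
      rw [show (2 * k + 1) ^ 2 = 4 * (k ^ 2 + k) + 1 by ring]; omega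
    rw [e1, e2]
    omega
  · subst hk
    have e1 : (2 * k + 1) ^ 2 / 4 = k ^ 2 + k := by
      rw [show (2 * k + 1) ^ 2 = 4 * (k ^ 2 + k) + 1 by ring]; omega
    have e2 : (2 * k + 1 + 1) ^ 2 / 4 = k ^ 2 + 2 * k + 1 := by
      rw [show (2 * k + 1 + 1) ^ 2 = 4 * (k ^ 2 + 2 * k + 1) by ring]; omega
    rw [e1, e2]
    omega

theorem egp (h1 : MatchLem) (h2 : Extend) : EGP := by
  intro V
  have key : ∀ (n : ℕ) (s : Finset V) (G : SimpleGraph V), s.card = n →
      (∀ u v, G.Adj u v → u ∈ s) →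
      ∃ F : Finset (Finset V), IsCliqueFamily G F ∧ PartitionsEdges G F ∧ F.card ≤ n ^ 2 / 4 := by
    intro n
    induction n with
    | zero =>
      intro s G hs hG
      rw [Finset.card_eq_zero] at hs
      refine ⟨∅, ?_, ?_, by simp⟩
      · intro s hs
        simp at hs
      · intro u v huv
        have := hG u v huv
        rw [hs] at this
        simp at this
    | succ n ih =>
      intro s G hs hG
      have hne : s.Nonempty := by
        rw [← Finset.card_pos, hs]; omega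
      obtain ⟨v, hv, hmin⟩ := Finset.exists_min_image s (fun u => (s.filter (G.Adj u)).card) hne
      set N := s.filter (G.Adj v) with hN
      have hNm : ∀ u, G.Adj v u ↔ u ∈ N := by
        intro u
        rw [hN, Finset.mem_filter]
        exact ⟨fun h => ⟨hG u v h.symm, h⟩, fun h => h.2⟩
      have hM : ∃ M : Finset (Finset V), M.card = N.card - (n + 1) / 2 ∧
          (∀ e ∈ M, e.card = 2 ∧ e ⊆ N ∧ G.IsClique (e : Set V)) ∧
          (∀ e ∈ M, ∀ e' ∈ M, e ≠ e' → Disjoint e e') := by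
        by_cases hd : N.card ≤ (n + 1) / 2
        · refine ⟨∅, ?_, ?_, ?_⟩
          · rw [Finset.card_empty]; omega
          · intro e he; simp at he
          · intro e he; simp at he
        · refine h1 V G N (N.card - (n + 1) / 2) (fun u hu => ?_) ?_
          · refine ⟨N.filter (G.Adj u), fun x hx => Finset.mem_filter.1 hx, ?_⟩
            have hus : u ∈ s := (Finset.mem_filter.1 hu).1
            have e1 : N.card ≤ (s.filter (G.Adj u)).card := hmin u hus
            have e2 : s.filter (G.Adj u) ⊆ N.filter (G.Adj u) ∪ (s \ N) := by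
              intro x hx
              rw [Finset.mem_filter] at hx
              rw [Finset.mem_union, Finset.mem_filter, Finset.mem_sdiff]
              by_cases hxN : x ∈ N
              · exact Or.inl ⟨hxN, hx.2⟩
              · exact Or.inr ⟨hx.1, hxN⟩
            have e3 := (Finset.card_le_card e2).trans (Finset.card_union_le _ _)
            have e4 : (s \ N).card = s.card - N.card :=
              Finset.card_sdiff_of_subset (Finset.filter_subset _ _)
            have e5 : N.card ≤ s.card := Finset.card_le_card (Finset.filter_subset _ _)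
            omega
          · rw [← Finset.card_pos]; omega
      obtain ⟨M, hMc, hM2, hM3⟩ := hM
      let G' : SimpleGraph V :=
        { Adj := fun a b => G.Adj a b ∧ a ≠ v ∧ b ≠ v ∧ ∀ e ∈ M, ¬ (a ∈ e ∧ b ∈ e)
          symm := ⟨fun a b h => ⟨h.1.symm, h.2.2.1, h.2.1, fun e he hh => h.2.2.2 e he ⟨hh.2, hh.1⟩⟩⟩
          loopless := ⟨fun a h => G.loopless.irrefl a h.1⟩ }
      have hG' : ∀ a b, G'.Adj a b ↔ G.Adj a b ∧ a ≠ v ∧ b ≠ v ∧ ∀ e ∈ M, ¬ (a ∈ e ∧ b ∈ e) :=
        fun a b => Iff.rfl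
      have hcard : (s.erase v).card = n := by
        rw [Finset.card_erase_of_mem hv, hs]; rfl
      obtain ⟨F', hF1, hF2, hF3⟩ := ih (s.erase v) G' hcard (fun a b hab =>
        Finset.mem_erase.2 ⟨hab.2.1, hG a b hab.1⟩)
      obtain ⟨F, hFa, hFb, hFc⟩ := h2 V G v N M G' F' hNm hM2 hM3 hG' hF1 hF2
      exact ⟨F, hFa, hFb, E_num n N.card F.card F'.card M.card hFc hF3 hMc⟩
  intro s G hG
  exact key s.card s G rfl hG

end sE

section sL

theorem L_pair {V : Type} [DecidableEq V] {a b u v : V} (hu : u ∈ ({a, b} : Finset V)) (hv : v ∈ ({a, b} : Finset V))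
    (huv : u ≠ v) : (u = a ∧ v = b) ∨ (u = b ∧ v = a) := by
  simp only [Finset.mem_insert, Finset.mem_singleton] at hu hv
  rcases hu with rfl | rfl <;> rcases hv with rfl | rfl
  · exact absurd rfl huv
  · exact Or.inl ⟨rfl, rfl⟩
  · exact Or.inr ⟨rfl, rfl⟩
  · exact absurd rfl huv

theorem labelLem : LabelLem := by
  intro n k G L hL
  let K : Fin k → Finset (Fin n) := fun c => univ.filter (fun v => L v = c ∧ ∃ w, G.Adj v w)
  have hK : ∀ c v, v ∈ K c ↔ L v = c ∧ ∃ w, G.Adj v w := by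
    intro c v
    simp [K]
  set F1 : Finset (Finset (Fin n)) := ((univ : Finset (Fin k)).image K).filter (fun s => 2 ≤ s.card)
    with hF1
  set P : Finset (Fin n × Fin n) := univ.filter (fun p => p.1 < p.2 ∧ G.Adj p.1 p.2 ∧ L p.1 ≠ L p.2)
    with hP
  set F2 : Finset (Finset (Fin n)) := P.image (fun p => ({p.1, p.2} : Finset (Fin n))) with hF2
  have hF1m : ∀ s, s ∈ F1 ↔ (∃ c, K c = s) ∧ 2 ≤ s.card := by
    intro s
    rw [hF1, Finset.mem_filter, Finset.mem_image]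
    simp
  have hF2m : ∀ s, s ∈ F2 ↔ ∃ a b, (a < b ∧ G.Adj a b ∧ L a ≠ L b) ∧ ({a, b} : Finset (Fin n)) = s := by
    intro s
    rw [hF2, Finset.mem_image]
    constructor
    · rintro ⟨⟨a, b⟩, hp, hs⟩
      rw [hP, Finset.mem_filter] at hp
      exact ⟨a, b, hp.2, hs⟩
    · rintro ⟨a, b, hp, hs⟩
      exact ⟨(a, b), by rw [hP, Finset.mem_filter]; exact ⟨Finset.mem_univ _, hp⟩, hs⟩
  refine ⟨F1 ∪ F2, ?_, ?_, ?_⟩
  · intro s hs
    rw [Finset.mem_union, hF1m, hF2m] at hs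
    rcases hs with ⟨⟨c, rfl⟩, hc⟩ | ⟨a, b, ⟨hab, hadj, -⟩, rfl⟩
    · refine ⟨hc, ?_⟩
      intro u hu v hv huv
      rw [Finset.mem_coe, hK] at hu hv
      exact hL u v huv (hu.1.trans hv.1.symm) hu.2 hv.2
    · refine ⟨by rw [Finset.card_pair (ne_of_lt hab)], ?_⟩
      intro u hu v hv huv
      rw [Finset.mem_coe] at hu hv
      rcases L_pair hu hv huv with ⟨rfl, rfl⟩ | ⟨rfl, rfl⟩
      · exact hadj
      · exact hadj.symm
  · intro u v huv
    have hne : u ≠ v := huv.ne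
    by_cases hl : L u = L v
    · refine ⟨K (L u), ⟨?_, ?_, ?_⟩, ?_⟩
      · rw [Finset.mem_union, hF1m]
        left
        refine ⟨⟨_, rfl⟩, ?_⟩
        have hsub : ({u, v} : Finset (Fin n)) ⊆ K (L u) := by
          intro x hx
          simp only [Finset.mem_insert, Finset.mem_singleton] at hx
          rcases hx with rfl | rfl
          · exact (hK _ _).2 ⟨rfl, v, huv⟩
          · exact (hK _ _).2 ⟨hl.symm, u, huv.symm⟩
        have := Finset.card_le_card hsub
        rwa [Finset.card_pair hne] at this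
      · exact (hK _ _).2 ⟨rfl, v, huv⟩
      · exact (hK _ _).2 ⟨hl.symm, u, huv.symm⟩
      · rintro s ⟨hs, hus, hvs⟩
        rw [Finset.mem_union, hF1m, hF2m] at hs
        rcases hs with ⟨⟨c, rfl⟩, hc⟩ | ⟨a, b, ⟨hab, hadj, hlab⟩, rfl⟩
        · rw [hK] at hus
          rw [hus.1]
        · exfalso
          rcases L_pair hus hvs hne with ⟨rfl, rfl⟩ | ⟨rfl, rfl⟩
          · exact hlab hl
          · exact hlab hl.symm
    · refine ⟨{u, v}, ⟨?_, by simp, by simp⟩, ?_⟩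
      · rw [Finset.mem_union, hF2m]
        right
        rcases lt_or_gt_of_ne hne with h | h
        · exact ⟨u, v, ⟨h, huv, hl⟩, rfl⟩
        · exact ⟨v, u, ⟨h, huv.symm, fun h' => hl h'.symm⟩, Finset.pair_comm v u⟩
      · rintro s ⟨hs, hus, hvs⟩
        rw [Finset.mem_union, hF1m, hF2m] at hs
        rcases hs with ⟨⟨c, rfl⟩, hc⟩ | ⟨a, b, ⟨hab, hadj, hlab⟩, rfl⟩
        · rw [hK] at hus hvs
          exact absurd (hus.1.trans hvs.1.symm) hl
        · rcases L_pair hus hvs hne with ⟨rfl, rfl⟩ | ⟨rfl, rfl⟩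
          · rfl
          · exact Finset.pair_comm _ _
  · have hc1 : F1.card ≤ k := by
      refine (Finset.card_filter_le _ _).trans ?_
      refine Finset.card_image_le.trans ?_
      rw [Finset.card_univ, Fintype.card_fin]
    have hc2 : F2.card ≤ P.card := Finset.card_image_le
    have hc3 : 2 * P.card ≤ ((univ : Finset (Fin n × Fin n)).filter
        (fun p => G.Adj p.1 p.2 ∧ L p.1 ≠ L p.2)).card := by
      have hdis : Disjoint P (P.image Prod.swap) := by
        rw [Finset.disjoint_left]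
        intro p hp hp'
        rw [Finset.mem_image] at hp'
        obtain ⟨q, hq, hqp⟩ := hp'
        rw [hP, Finset.mem_filter] at hp hq
        have e1 := hp.2.1
        have e2 := hq.2.1
        rw [← hqp] at e1
        simp only [Prod.fst_swap, Prod.snd_swap] at e1
        exact absurd e1 (not_lt.2 e2.le)
      have hsub : P ∪ P.image Prod.swap ⊆ (univ : Finset (Fin n × Fin n)).filter
          (fun p => G.Adj p.1 p.2 ∧ L p.1 ≠ L p.2) := by
        intro p hp
        rw [Finset.mem_filter]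
        refine ⟨Finset.mem_univ _, ?_⟩
        rw [Finset.mem_union, Finset.mem_image] at hp
        rcases hp with hp | ⟨q, hq, rfl⟩
        · rw [hP, Finset.mem_filter] at hp
          exact hp.2.2
        · rw [hP, Finset.mem_filter] at hq
          exact ⟨hq.2.2.1.symm, fun h => hq.2.2.2 h.symm⟩
      have h3 := Finset.card_le_card hsub
      rw [Finset.card_union_of_disjoint hdis,
        Finset.card_image_of_injective _ Prod.swap_injective] at h3
      omega
    have h4 := Finset.card_union_le F1 F2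
    omega

end sL

section sC

theorem countLem_key (n : ℕ) (r : Fin n → Fin 8) (g : Fin 8 → ℕ) :
    ∑ u : Fin n, g (r u) = ∑ a, (univ.filter (fun u => r u = a)).card * g a := by
  rw [← Finset.sum_fiberwise' (univ : Finset (Fin n)) r g]
  refine Finset.sum_congr rfl fun a _ => ?_
  rw [Finset.sum_const, smul_eq_mul]

theorem countLem : CountLem := by
  intro n r T
  rw [Finset.card_filter, Fintype.sum_prod_type]
  have h1 : ∀ a : Fin 8, ∑ v : Fin n, (if T a (r v) = true then 1 else 0) =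
      ∑ b, (univ.filter (fun u => r u = b)).card * (if T a b = true then 1 else 0) := fun a =>
    countLem_key n r (fun b => if T a b = true then 1 else 0)
  have h2 : ∑ u : Fin n, ∑ v : Fin n, (if T (r u) (r v) = true then 1 else 0) =
      ∑ a, (univ.filter (fun u => r u = a)).card *
        ∑ v : Fin n, (if T a (r v) = true then 1 else 0) :=
    countLem_key n r (fun a => ∑ v : Fin n, (if T a (r v) = true then 1 else 0))
  refine h2.trans ?_
  refine Finset.sum_congr rfl fun a _ => ?_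
  rw [h1 a, Finset.mul_sum]
  refine Finset.sum_congr rfl fun b _ => ?_
  by_cases h : T a b = true
  · simp [h]
  · simp [h]

end sC

section sT2

private theorem t2_aux (hL : LabelLem) (n : ℕ) (G : SimpleGraph (Fin n)) (V1 V2 : Finset (Fin n))
    (h : ∀ u v, G.Adj u v ↔ u ≠ v ∧ ((u ∈ V1 ∧ v ∈ V1) ∨ (u ∈ V2 ∧ v ∈ V2))) :
    ∃ F : Finset (Finset (Fin n)), IsCliqueFamily G F ∧ PartitionsEdges G F ∧
      F.card ≤ 2 + (V1 ∩ V2).card * (V2 \ V1).card := by
  obtain ⟨F, hF1, hF2, hF3⟩ := hL n 2 G (fun u => if u ∈ V1 then 0 else 1) (by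
    intro u v huv hl hu hv
    rw [h]
    refine ⟨huv, ?_⟩
    by_cases h1 : u ∈ V1
    · by_cases h2 : v ∈ V1
      · exact Or.inl ⟨h1, h2⟩
      · simp [h1, h2] at hl
    · by_cases h2 : v ∈ V1
      · simp [h1, h2] at hl
      · obtain ⟨w, hw⟩ := hu
        obtain ⟨w', hw'⟩ := hv
        rw [h] at hw hw'
        rcases hw.2 with h3 | h3
        · exact absurd h3.1 h1
        · rcases hw'.2 with h4 | h4
          · exact absurd h4.1 h2
          · exact Or.inr ⟨h3.1, h4.1⟩)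
  refine ⟨F, hF1, hF2, ?_⟩
  have hsub : ((univ : Finset (Fin n × Fin n)).filter
      (fun p => G.Adj p.1 p.2 ∧ (if p.1 ∈ V1 then (0 : Fin 2) else 1) ≠
        (if p.2 ∈ V1 then (0 : Fin 2) else 1))) ⊆
      ((V1 ∩ V2) ×ˢ (V2 \ V1)) ∪ ((V2 \ V1) ×ˢ (V1 ∩ V2)) := by
    rintro ⟨a, b⟩ hp
    rw [mem_filter] at hp
    obtain ⟨-, hadj, hne⟩ := hp
    simp only at hadj hne
    rw [h] at hadj
    rw [mem_union, mem_product, mem_product]
    simp only [mem_inter, mem_sdiff]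
    by_cases h1 : a ∈ V1
    · by_cases h2 : b ∈ V1
      · simp [h1, h2] at hne
      · rcases hadj.2 with h3 | h3
        · exact absurd h3.2 h2
        · exact Or.inl ⟨⟨h1, h3.1⟩, h3.2, h2⟩
    · by_cases h2 : b ∈ V1
      · rcases hadj.2 with h3 | h3
        · exact absurd h3.1 h1
        · exact Or.inr ⟨⟨h3.1, h1⟩, h2, h3.2⟩
      · simp [h1, h2] at hne
  have hcard := (card_le_card hsub).trans (card_union_le _ _)
  rw [card_product, card_product] at hcard
  have h5 : (V2 \ V1).card * (V1 ∩ V2).card = (V1 ∩ V2).card * (V2 \ V1).card := mul_comm _ _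
  rw [h5] at hcard
  have h6 : 2 * F.card ≤ 2 * 2 + ((V1 ∩ V2).card * (V2 \ V1).card +
      (V1 ∩ V2).card * (V2 \ V1).card) := by
    refine hF3.trans ?_
    have h7 := hcard
    convert Nat.add_le_add_left h7 (2 * 2) using 4
  omega

private theorem t2_num {n a b c : ℕ} (h : a + b + c ≤ n) (hba : b ≤ a) :
    8 * (c * b) ≤ n ^ 2 := by
  have h1 : 2 * b + c ≤ n := by omega
  have h2 : (2 * b + c) ^ 2 ≤ n ^ 2 := Nat.pow_le_pow_left h1 2
  have h3 : 8 * (c * b) ≤ (2 * b + c) ^ 2 := by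
    zify
    nlinarith [sq_nonneg ((2 * b : ℤ) - c)]
  omega

/-- T2: graphs covered by two cliques -/
theorem two (hL : LabelLem) : Two := by
  intro n G V1 V2 h
  have hsum : (V1 \ V2).card + (V2 \ V1).card + (V1 ∩ V2).card ≤ n := by
    have h1 : Disjoint (V1 \ V2) (V2 \ V1) := by
      rw [disjoint_left]
      intro x hx hx'
      rw [mem_sdiff] at hx hx'
      exact hx.2 hx'.1
    have h2 : Disjoint (V1 \ V2 ∪ V2 \ V1) (V1 ∩ V2) := by
      rw [disjoint_left]
      intro x hx hx'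
      rw [mem_union, mem_sdiff, mem_sdiff] at hx
      rw [mem_inter] at hx'
      rcases hx with hx | hx
      · exact hx.2 hx'.2
      · exact hx.2 hx'.1
    rw [← card_union_of_disjoint h1, ← card_union_of_disjoint h2]
    exact (card_le_univ _).trans (by simp)
  rcases le_total (V2 \ V1).card (V1 \ V2).card with hle | hle
  · obtain ⟨F, h1, h2, h3⟩ := t2_aux hL n G V1 V2 h
    refine ⟨F, h1, h2, ?_⟩
    have h4 := t2_num hsum hle
    omega
  · obtain ⟨F, h1, h2, h3⟩ := t2_aux hL n G V2 V1 (by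
      intro u v
      rw [h]
      tauto)
    refine ⟨F, h1, h2, ?_⟩
    rw [inter_comm V2 V1] at h3
    have h4 := t2_num (n := n) (a := (V2 \ V1).card) (b := (V1 \ V2).card)
      (c := (V1 ∩ V2).card) (by omega) hle
    omega

end sT2

section sT3a

/-! Task T3a (helper153): three cliques, ordered case. -/



/-- two codes share a bit -/
def t3Sh (a b : Fin 8) : Bool := decide (a.1 &&& b.1 ≠ 0)

/-- code of a membership pattern -/
def t3Cod (a b c : Bool) : Fin 8 :=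
  ⟨a.toNat + 2 * b.toNat + 4 * c.toNat, by cases a <;> cases b <;> cases c <;> decide⟩

lemma t3Sh_cod : ∀ a b c a' b' c' : Bool, t3Sh (t3Cod a b c) (t3Cod a' b' c') = true ↔
    ((a = true ∧ a' = true) ∨ (b = true ∧ b' = true) ∨ (c = true ∧ c' = true)) := by
  decide

lemma t3Cod_1 : ∀ a b c : Bool, t3Cod a b c = 1 ↔ (a = true ∧ ¬ b = true ∧ ¬ c = true) := by
  decide

lemma t3Cod_2 : ∀ a b c : Bool, t3Cod a b c = 2 ↔ (¬ a = true ∧ b = true ∧ ¬ c = true) := by
  decide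

lemma t3Cod_4 : ∀ a b c : Bool, t3Cod a b c = 4 ↔ (¬ a = true ∧ ¬ b = true ∧ c = true) := by
  decide

/-- the four labellings -/
def t3D : Fin 8 → Fin 4 := ![0, 1, 2, 0, 3, 0, 0, 0]
def t3A1 : Fin 8 → Fin 4 := ![0, 0, 1, 0, 2, 0, 1, 0]
def t3A2 : Fin 8 → Fin 4 := ![0, 1, 0, 0, 2, 1, 0, 0]
def t3A3 : Fin 8 → Fin 4 := ![0, 1, 2, 1, 0, 0, 0, 0]

/-- the pairs counted -/
def t3T (l : Fin 8 → Fin 4) (a b : Fin 8) : Bool := t3Sh a b && decide (l a ≠ l b)

lemma t3_key (hL : LabelLem) (hC : CountLem) (n : ℕ) (G : SimpleGraph (Fin n)) (r : Fin n → Fin 8)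
    (hG : ∀ u v, G.Adj u v ↔ u ≠ v ∧ t3Sh (r u) (r v) = true) (l : Fin 8 → Fin 4)
    (hl : ∀ a b, a ≠ 0 → b ≠ 0 → l a = l b → t3Sh a b = true) :
    ∃ F : Finset (Finset (Fin n)), IsCliqueFamily G F ∧ PartitionsEdges G F ∧
      2 * F.card ≤ 8 + ∑ a, ∑ b, if t3T l a b = true then
        (univ.filter (fun u => r u = a)).card * (univ.filter (fun u => r u = b)).card else 0 := by
  have hz : ∀ b : Fin 8, t3Sh 0 b = false := by decide
  obtain ⟨F, hF1, hF2, hF3⟩ := hL n 4 G (fun u => l (r u)) (by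
    intro u v huv hlab hu hv
    have hu0 : r u ≠ 0 := by
      obtain ⟨w, hw⟩ := hu
      intro h0
      have := ((hG u w).1 hw).2
      rw [h0, hz] at this
      exact Bool.noConfusion this
    have hv0 : r v ≠ 0 := by
      obtain ⟨w, hw⟩ := hv
      intro h0
      have := ((hG v w).1 hw).2
      rw [h0, hz] at this
      exact Bool.noConfusion this
    exact (hG u v).2 ⟨huv, hl _ _ hu0 hv0 hlab⟩)
  refine ⟨F, hF1, hF2, ?_⟩
  rw [← hC n r (t3T l)]
  have h : ((univ : Finset (Fin n × Fin n)).filter (fun p => G.Adj p.1 p.2 ∧ l (r p.1) ≠ l (r p.2))) =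
      ((univ : Finset (Fin n × Fin n)).filter (fun p => t3T l (r p.1) (r p.2) = true)) := by
    apply Finset.filter_congr
    intro p _
    rw [hG]
    simp only [t3T, Bool.and_eq_true, decide_eq_true_eq]
    constructor
    · rintro ⟨⟨_, h1⟩, h2⟩
      exact ⟨h1, h2⟩
    · rintro ⟨h1, h2⟩
      refine ⟨⟨?_, h1⟩, h2⟩
      intro h3
      apply h2
      rw [h3]
  rw [← h]
  exact hF3

lemma t3_sumD (N : Fin 8 → ℕ) : (∑ a, ∑ b, if t3T t3D a b = true then N a * N b else 0) =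
    2 * (N 1 * (N 5 + N 3 + N 7) + N 2 * (N 6 + N 3 + N 7) + N 4 * (N 6 + N 5 + N 7)) := by
  simp only [Fin.sum_univ_eight, t3T, t3Sh, t3D]
  simp
  ring

lemma t3_sumA1 (N : Fin 8 → ℕ) : (∑ a, ∑ b, if t3T t3A1 a b = true then N a * N b else 0) =
    2 * (N 2 * (N 3 + N 7) + N 4 * (N 5 + N 7) + N 6 * (N 5 + N 3 + N 7) + N 6 * N 4) := by
  simp only [Fin.sum_univ_eight, t3T, t3Sh, t3A1]
  simp
  ring

lemma t3_sumA2 (N : Fin 8 → ℕ) : (∑ a, ∑ b, if t3T t3A2 a b = true then N a * N b else 0) =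
    2 * (N 1 * (N 3 + N 7) + N 4 * (N 6 + N 7) + N 5 * (N 6 + N 3 + N 7) + N 5 * N 4) := by
  simp only [Fin.sum_univ_eight, t3T, t3Sh, t3A2]
  simp
  ring

lemma t3_sumA3 (N : Fin 8 → ℕ) : (∑ a, ∑ b, if t3T t3A3 a b = true then N a * N b else 0) =
    2 * (N 1 * (N 5 + N 7) + N 2 * (N 6 + N 7) + N 3 * (N 6 + N 5 + N 7) + N 3 * N 2) := by
  simp only [Fin.sum_univ_eight, t3T, t3Sh, t3A3]
  simp
  ring

theorem threeOrd (hL : LabelLem) (hC : CountLem) (hI : Ineq) : ThreeOrd := by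
  intro n G V1 V2 V3 hG h32 h21
  set r : Fin n → Fin 8 := fun u => t3Cod (decide (u ∈ V1)) (decide (u ∈ V2)) (decide (u ∈ V3)) with hr
  have hG' : ∀ u v, G.Adj u v ↔ u ≠ v ∧ t3Sh (r u) (r v) = true := by
    intro u v
    rw [hG, hr, t3Sh_cod]
    simp only [decide_eq_true_eq]
  have hN4 : (univ.filter (fun u => u ∉ V1 ∧ u ∉ V2 ∧ u ∈ V3)) = univ.filter (fun u => r u = 4) := by
    apply Finset.filter_congr
    intro u _
    rw [hr, t3Cod_4]
    simp only [decide_eq_true_eq]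
  have hN2 : (univ.filter (fun u => u ∉ V1 ∧ u ∈ V2 ∧ u ∉ V3)) = univ.filter (fun u => r u = 2) := by
    apply Finset.filter_congr
    intro u _
    rw [hr, t3Cod_2]
    simp only [decide_eq_true_eq]
  have hN1 : (univ.filter (fun u => u ∈ V1 ∧ u ∉ V2 ∧ u ∉ V3)) = univ.filter (fun u => r u = 1) := by
    apply Finset.filter_congr
    intro u _
    rw [hr, t3Cod_1]
    simp only [decide_eq_true_eq]
  rw [hN4, hN2] at h32
  rw [hN2, hN1] at h21
  set N : Fin 8 → ℕ := fun a => (univ.filter (fun u => r u = a)).card with hN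
  have hsum : ∑ a, N a = n := by
    have h1 := Finset.card_eq_sum_card_fiberwise (f := r) (s := univ) (t := univ)
      (fun _ _ => by simp)
    rw [Finset.card_univ, Fintype.card_fin] at h1
    exact h1.symm
  rw [Fin.sum_univ_eight] at hsum
  change N 4 ≤ N 2 at h32
  change N 2 ≤ N 1 at h21
  obtain ⟨F0, hF01, hF02, hF03⟩ := t3_key hL hC n G r hG' t3D (by decide)
  obtain ⟨F1, hF11, hF12, hF13⟩ := t3_key hL hC n G r hG' t3A1 (by decide)
  obtain ⟨F2, hF21, hF22, hF23⟩ := t3_key hL hC n G r hG' t3A2 (by decide)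
  obtain ⟨F3, hF31, hF32, hF33⟩ := t3_key hL hC n G r hG' t3A3 (by decide)
  have e0 := t3_sumD N
  have e1 := t3_sumA1 N
  have e2 := t3_sumA2 N
  have e3 := t3_sumA3 N
  change 2 * F0.card ≤ 8 + ∑ a, ∑ b, if t3T t3D a b = true then N a * N b else 0 at hF03
  change 2 * F1.card ≤ 8 + ∑ a, ∑ b, if t3T t3A1 a b = true then N a * N b else 0 at hF13
  change 2 * F2.card ≤ 8 + ∑ a, ∑ b, if t3T t3A2 a b = true then N a * N b else 0 at hF23
  change 2 * F3.card ≤ 8 + ∑ a, ∑ b, if t3T t3A3 a b = true then N a * N b else 0 at hF33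
  rw [e0] at hF03
  rw [e1] at hF13
  rw [e2] at hF23
  rw [e3] at hF33
  clear e0 e1 e2 e3 hN hN1 hN2 hN4
  clear_value N
  by_contra hcon
  have g0 : 3 * n ^ 2 + 64 < 16 * F0.card := by
    by_contra h
    exact hcon ⟨F0, hF01, hF02, not_lt.1 h⟩
  have g1 : 3 * n ^ 2 + 64 < 16 * F1.card := by
    by_contra h
    exact hcon ⟨F1, hF11, hF12, not_lt.1 h⟩
  have g2 : 3 * n ^ 2 + 64 < 16 * F2.card := by
    by_contra h
    exact hcon ⟨F2, hF21, hF22, not_lt.1 h⟩
  have g3 : 3 * n ^ 2 + 64 < 16 * F3.card := by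
    by_contra h
    exact hcon ⟨F3, hF31, hF32, not_lt.1 h⟩
  have hin := hI (N 1) (N 2) (N 4) (N 6) (N 5) (N 3) (N 7) (Nat.cast_nonneg _) (Nat.cast_le.2 h32)
    (Nat.cast_le.2 h21) (Nat.cast_nonneg _) (Nat.cast_nonneg _) (Nat.cast_nonneg _) (Nat.cast_nonneg _)
  have hle : ((N 1 : ℝ) + N 2 + N 4 + N 6 + N 5 + N 3 + N 7) ≤ n := by
    have : N 1 + N 2 + N 4 + N 6 + N 5 + N 3 + N 7 ≤ n := by omega
    exact_mod_cast this
  have hle2 : ((N 1 : ℝ) + N 2 + N 4 + N 6 + N 5 + N 3 + N 7) ^ 2 ≤ (n : ℝ) ^ 2 := by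
    apply pow_le_pow_left₀ (by positivity) hle
  have k0 : (3 * (n : ℝ) ^ 2 + 64) < 16 * (F0.card : ℝ) := by exact_mod_cast g0
  have k1 : (3 * (n : ℝ) ^ 2 + 64) < 16 * (F1.card : ℝ) := by exact_mod_cast g1
  have k2 : (3 * (n : ℝ) ^ 2 + 64) < 16 * (F2.card : ℝ) := by exact_mod_cast g2
  have k3 : (3 * (n : ℝ) ^ 2 + 64) < 16 * (F3.card : ℝ) := by exact_mod_cast g3
  have m0 : 2 * (F0.card : ℝ) ≤ 8 + 2 * (N 1 * (N 5 + N 3 + N 7) + N 2 * (N 6 + N 3 + N 7) +
      N 4 * (N 6 + N 5 + N 7)) := by exact_mod_cast hF03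
  have m1 : 2 * (F1.card : ℝ) ≤ 8 + 2 * (N 2 * (N 3 + N 7) + N 4 * (N 5 + N 7) +
      N 6 * (N 5 + N 3 + N 7) + N 6 * N 4) := by exact_mod_cast hF13
  have m2 : 2 * (F2.card : ℝ) ≤ 8 + 2 * (N 1 * (N 3 + N 7) + N 4 * (N 6 + N 7) +
      N 5 * (N 6 + N 3 + N 7) + N 5 * N 4) := by exact_mod_cast hF23
  have m3 : 2 * (F3.card : ℝ) ≤ 8 + 2 * (N 1 * (N 5 + N 7) + N 2 * (N 6 + N 7) +
      N 3 * (N 6 + N 5 + N 7) + N 3 * N 2) := by exact_mod_cast hF33
  clear hcon hG' hG hL hC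
  linarith

end sT3a

section sT3b

theorem three (h : ThreeOrd) : Three := by
  intro n G V1 V2 V3 hadj
  set p : Finset (Fin n) → Finset (Fin n) → Finset (Fin n) → ℕ := fun A B C =>
    (univ.filter (fun u => u ∈ A ∧ u ∉ B ∧ u ∉ C)).card with hp
  have key : ∀ A B C : Finset (Fin n),
      (∀ u v, G.Adj u v ↔ u ≠ v ∧ ((u ∈ A ∧ v ∈ A) ∨ (u ∈ B ∧ v ∈ B) ∨ (u ∈ C ∧ v ∈ C))) →
      p C A B ≤ p B A C → p B A C ≤ p A B C →
      ∃ F : Finset (Finset (Fin n)), IsCliqueFamily G F ∧ PartitionsEdges G F ∧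
        16 * F.card ≤ 3 * n ^ 2 + 64 := by
    intro A B C hA h1 h2
    apply h n G A B C hA
    · have e1 : (univ.filter (fun u : Fin n => u ∉ A ∧ u ∉ B ∧ u ∈ C)).card = p C A B := by
        rw [hp]; congr 1; ext u; simp only [mem_filter, mem_univ, true_and]; tauto
      have e2 : (univ.filter (fun u : Fin n => u ∉ A ∧ u ∈ B ∧ u ∉ C)).card = p B A C := by
        rw [hp]; congr 1; ext u; simp only [mem_filter, mem_univ, true_and]; tauto
      rw [e1, e2]; exact h1
    · have e2 : (univ.filter (fun u : Fin n => u ∉ A ∧ u ∈ B ∧ u ∉ C)).card = p B A C := by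
        rw [hp]; congr 1; ext u; simp only [mem_filter, mem_univ, true_and]; tauto
      rw [e2]; exact h2
  have sw : ∀ A B C : Finset (Fin n), p A B C = p A C B := by
    intro A B C
    show (univ.filter (fun u : Fin n => u ∈ A ∧ u ∉ B ∧ u ∉ C)).card
      = (univ.filter (fun u : Fin n => u ∈ A ∧ u ∉ C ∧ u ∉ B)).card
    congr 1; ext u; simp only [mem_filter, mem_univ, true_and]; tauto
  rcases le_total (p V3 V1 V2) (p V2 V1 V3) with h1 | h1 <;>
  rcases le_total (p V2 V1 V3) (p V1 V2 V3) with h2 | h2 <;>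
  rcases le_total (p V3 V1 V2) (p V1 V2 V3) with h3 | h3
  · exact key V1 V2 V3 hadj h1 h2
  · exact key V1 V2 V3 hadj h1 h2
  · -- p3 ≤ p2, p1 ≤ p2, p3 ≤ p1 : order V2 V1 V3
    refine key V2 V1 V3 (fun u v => by rw [hadj]; tauto) ?_ ?_
    · rw [sw V3 V2 V1]; exact h3
    · exact h2
  · -- p1 ≤ p3 ≤ p2 : order V2 V3 V1
    refine key V2 V3 V1 (fun u v => by rw [hadj]; tauto) ?_ ?_
    · rw [sw V3 V2 V1]; exact h3
    · rw [sw V3 V2 V1, sw V2 V3 V1]; exact h1
  · -- p2 ≤ p3, p2 ≤ p1, p3 ≤ p1 : V1 V3 V2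
    refine key V1 V3 V2 (fun u v => by rw [hadj]; tauto) ?_ ?_
    · exact h1
    · rw [sw V1 V3 V2]; exact h3
  · -- p2 ≤ p1 ≤ p3 : V3 V1 V2
    refine key V3 V1 V2 (fun u v => by rw [hadj]; tauto) ?_ ?_
    · rw [sw V2 V3 V1, sw V1 V3 V2]; exact h2
    · rw [sw V1 V3 V2]; exact h3
  · -- p2 ≤ p3, p1 ≤ p2, p3 ≤ p1 : all equal; V3 V2 V1
    refine key V3 V2 V1 (fun u v => by rw [hadj]; tauto) ?_ ?_
    · rw [sw V1 V3 V2, sw V2 V3 V1]; exact h2
    · rw [sw V2 V3 V1, sw V3 V2 V1]; exact h1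
  · -- p1 ≤ p2 ≤ p3 : V3 V2 V1
    refine key V3 V2 V1 (fun u v => by rw [hadj]; tauto) ?_ ?_
    · rw [sw V1 V3 V2, sw V2 V3 V1]; exact h2
    · rw [sw V2 V3 V1, sw V3 V2 V1]; exact h1

end sT3b

section sIneq

theorem ineq7 (a b c y1 y2 y3 z : ℝ) (ha : 0 ≤ a) (hb : 0 ≤ b) (hc : 0 ≤ c) (h1 : 0 ≤ y1)
    (h2 : 0 ≤ y2) (h3 : 0 ≤ y3) (hz : 0 ≤ z) :
    8 * (2 * ((a+b+c) * (y2+y3+z) + (b+c) * (y1+y3+z) + c * (y1+y2+z))
      + 3 * ((b+c) * (y3+z) + c * (y2+z) + y1 * (y2+y3+z) + y1 * c)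
      + 3 * ((a+b+c) * (y3+z) + c * (y1+z) + y2 * (y1+y3+z) + y2 * c)
      + 2 * ((a+b+c) * (y2+z) + (b+c) * (y1+z) + y3 * (y1+y2+z) + y3 * (b+c)))
    ≤ 15 * ((a+b+c) + (b+c) + c + y1 + y2 + y3 + z) ^ 2 := by
  have q1 := sq_nonneg (a + (28/15) * b + (8/3) * c + (1/3) * y1 + (-1/5) * y2 + (-13/30) * y3 + (-9/10) * z)
  have q2 := sq_nonneg (b + (5/8) * c + (-5/8) * y1 + (36/29) * y2 + (-22/29) * y3 + (-39/232) * z)
  have q3 := sq_nonneg (c + (-71/135) * y1 + (-16/405) * y2 + (8/15) * y3 + (-11/45) * z)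
  have q4 := sq_nonneg (y1 + (-341/447) * y2 + (-18/149) * y3 + (39/298) * z)
  have q5 := sq_nonneg (y2 + (-1249/2231) * y3 + (-12965/13386) * z)
  have q6 := sq_nonneg (y3 + (-7063/8637) * z)
  have q7 := sq_nonneg z
  have p1 := mul_nonneg ha hb
  have p2 := mul_nonneg ha hc
  have p3 := mul_nonneg ha h1
  have p4 := mul_nonneg ha h2
  have p5 := mul_nonneg ha h3
  have p6 := mul_nonneg ha hz
  have p7 := mul_nonneg hb hc
  have p8 := mul_nonneg hb h1
  have p9 := mul_nonneg hb h2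
  have p10 := mul_nonneg hb h3
  have p11 := mul_nonneg hb hz
  have p12 := mul_nonneg hc h1
  have p13 := mul_nonneg hc h2
  have p14 := mul_nonneg hc h3
  have p15 := mul_nonneg hc hz
  have p16 := mul_nonneg h1 h2
  have p17 := mul_nonneg h1 h3
  have p18 := mul_nonneg h1 hz
  have p19 := mul_nonneg h2 h3
  have p20 := mul_nonneg h2 hz
  have p21 := mul_nonneg h3 hz
  linarith only [q1, q2, q3, q4, q5, q6, q7, p1, p2, p3, p4, p5, p6, p7, p8, p9, p10, p11, p12, p13, p14, p15, p16, p17, p18, p19, p20, p21]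
theorem ineq : Ineq := by
  intro x1 x2 x3 y1 y2 y3 z h3 h32 h21 hy1 hy2 hy3 hz
  have h := ineq7 (x1 - x2) (x2 - x3) x3 y1 y2 y3 z (by linarith) (by linarith) h3 hy1 hy2 hy3 hz
  have e1 : x1 - x2 + (x2 - x3) + x3 = x1 := by ring
  have e2 : x2 - x3 + x3 = x2 := by ring
  rw [e1, e2] at h
  exact h

end sIneq

section sH

theorem cp_le {V : Type} {G : SimpleGraph V} {F : Finset (Finset V)} (h1 : IsCliqueFamily G F)
    (h2 : PartitionsEdges G F) : cp G ≤ F.card := Nat.sInf_le ⟨F, h1, h2, rfl⟩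

theorem cc_spec (hE : EGP) {n : ℕ} (G : SimpleGraph (Fin n)) :
    ∃ F : Finset (Finset (Fin n)), IsCliqueFamily G F ∧ CoversEdges G F ∧ F.card = cc G := by
  obtain ⟨F, h1, h2, _⟩ := hE (Fin n) univ G (fun u _ _ => mem_univ u)
  have : {k | ∃ F : Finset (Finset (Fin n)), IsCliqueFamily G F ∧ CoversEdges G F ∧
      F.card = k}.Nonempty := by
    refine ⟨F.card, F, h1, ?_, rfl⟩
    intro u v huv
    obtain ⟨s, hs, _⟩ := h2 u v huv
    exact ⟨s, hs⟩
  exact Nat.sInf_mem this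

theorem main_bound (hE : EGP) (hT2 : Two) (hT3 : Three) (n : ℕ) (G : SimpleGraph (Fin n))
    (hG : G ≠ ⊥) : 0 < cc G ∧ (cp G : ℝ) ≤ ((n : ℝ) ^ 2 / 16 + 3) * (cc G : ℝ) := by
  obtain ⟨F, hF1, hF2, hF3⟩ := cc_spec hE G
  have hedge : ∃ u v, G.Adj u v := by
    by_contra hc
    push Not at hc
    apply hG
    ext u v
    simp [hc u v]
  obtain ⟨u0, v0, h0⟩ := hedge
  have hpos : 0 < cc G := by
    rw [← hF3, Finset.card_pos]
    obtain ⟨s, hs, _⟩ := hF2 u0 v0 h0
    exact ⟨s, hs⟩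
  refine ⟨hpos, ?_⟩
  have hn : (0 : ℝ) ≤ (n : ℝ) ^ 2 := by positivity
  rcases Nat.lt_or_ge (cc G) 4 with hlt | hge
  · have hcases : cc G = 1 ∨ cc G = 2 ∨ cc G = 3 := by omega
    rcases hcases with h | h | h
    · -- one clique
      rw [h] at hF3 ⊢
      have hp : PartitionsEdges G F := by
        obtain ⟨s, rfl⟩ := Finset.card_eq_one.1 hF3
        intro u v huv
        obtain ⟨t, ht, hu, hv⟩ := hF2 u v huv
        refine ⟨t, ⟨ht, hu, hv⟩, ?_⟩
        rintro t' ⟨ht', _⟩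
        rw [Finset.mem_singleton] at ht ht'
        rw [ht, ht']
      have h1 := cp_le hF1 hp
      rw [hF3] at h1
      have h2 : (cp G : ℝ) ≤ 1 := by exact_mod_cast h1
      push_cast
      nlinarith
    · rw [h] at hF3 ⊢
      obtain ⟨V1, V2, _, rfl⟩ := Finset.card_eq_two.1 hF3
      have hadj : ∀ u v, G.Adj u v ↔ u ≠ v ∧ ((u ∈ V1 ∧ v ∈ V1) ∨ (u ∈ V2 ∧ v ∈ V2)) := by
        intro u v
        constructor
        · intro huv
          refine ⟨huv.ne, ?_⟩
          obtain ⟨s, hs, hu, hv⟩ := hF2 u v huv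
          simp only [Finset.mem_insert, Finset.mem_singleton] at hs
          rcases hs with rfl | rfl
          · exact Or.inl ⟨hu, hv⟩
          · exact Or.inr ⟨hu, hv⟩
        · rintro ⟨hne, h1 | h1⟩
          · exact (hF1 V1 (by simp)).2 (by exact_mod_cast h1.1) (by exact_mod_cast h1.2) hne
          · exact (hF1 V2 (by simp)).2 (by exact_mod_cast h1.1) (by exact_mod_cast h1.2) hne
      obtain ⟨F', h1, h2, h3⟩ := hT2 n G V1 V2 hadj
      have h4 := cp_le h1 h2
      have h5 : (8 : ℝ) * (F'.card : ℝ) ≤ (n : ℝ) ^ 2 + 16 := by exact_mod_cast h3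
      have h6 : (cp G : ℝ) ≤ (F'.card : ℝ) := by exact_mod_cast h4
      push_cast
      linarith
    · rw [h] at hF3 ⊢
      obtain ⟨V1, V2, V3, _, _, _, rfl⟩ := Finset.card_eq_three.1 hF3
      have hadj : ∀ u v, G.Adj u v ↔ u ≠ v ∧
          ((u ∈ V1 ∧ v ∈ V1) ∨ (u ∈ V2 ∧ v ∈ V2) ∨ (u ∈ V3 ∧ v ∈ V3)) := by
        intro u v
        constructor
        · intro huv
          refine ⟨huv.ne, ?_⟩
          obtain ⟨s, hs, hu, hv⟩ := hF2 u v huv
          simp only [Finset.mem_insert, Finset.mem_singleton] at hs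
          rcases hs with rfl | rfl | rfl
          · exact Or.inl ⟨hu, hv⟩
          · exact Or.inr (Or.inl ⟨hu, hv⟩)
          · exact Or.inr (Or.inr ⟨hu, hv⟩)
        · rintro ⟨hne, h1 | h1 | h1⟩
          · exact (hF1 V1 (by simp)).2 (by exact_mod_cast h1.1) (by exact_mod_cast h1.2) hne
          · exact (hF1 V2 (by simp)).2 (by exact_mod_cast h1.1) (by exact_mod_cast h1.2) hne
          · exact (hF1 V3 (by simp)).2 (by exact_mod_cast h1.1) (by exact_mod_cast h1.2) hne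
      obtain ⟨F', h1, h2, h3⟩ := hT3 n G V1 V2 V3 hadj
      have h4 := cp_le h1 h2
      have h5 : (16 : ℝ) * (F'.card : ℝ) ≤ 3 * (n : ℝ) ^ 2 + 64 := by exact_mod_cast h3
      have h6 : (cp G : ℝ) ≤ (F'.card : ℝ) := by exact_mod_cast h4
      push_cast
      linarith
  · obtain ⟨F', h1, h2, h3⟩ := hE (Fin n) univ G (fun u _ _ => mem_univ u)
    have h4 := cp_le h1 h2
    rw [Finset.card_univ, Fintype.card_fin] at h3
    have h5 : 4 * cp G ≤ n ^ 2 := by
      have := Nat.div_mul_le_self (n ^ 2) 4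
      omega
    have h6 : (4 : ℝ) * (cp G : ℝ) ≤ (n : ℝ) ^ 2 := by exact_mod_cast h5
    have h7 : (4 : ℝ) ≤ (cc G : ℝ) := by exact_mod_cast hge
    have h8 : ((n : ℝ) ^ 2 / 16 + 3) * 4 ≤ ((n : ℝ) ^ 2 / 16 + 3) * (cc G : ℝ) :=
      mul_le_mul_of_nonneg_left h7 (by positivity)
    linarith

theorem main_lim (hE : EGP) (hT2 : Two) (hT3 : Three) (c : ℝ) (hc : ∀ N : ℕ, ∃ n : ℕ, N ≤ n ∧
    ∃ G : SimpleGraph (Fin n), G ≠ ⊥ ∧ (cp G : ℝ) / (cc G : ℝ) > c * (n : ℝ) ^ 2) :
    c ≤ 1 / 16 := by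
  by_contra hlt
  push Not at hlt
  obtain ⟨N, hN⟩ := exists_nat_gt (3 / (c - 1 / 16))
  obtain ⟨n, hn, G, hG, hr⟩ := hc (N + 1)
  obtain ⟨h1, h2⟩ := main_bound hE hT2 hT3 n G hG
  have hpos : (0 : ℝ) < (cc G : ℝ) := by exact_mod_cast h1
  have h3 : (cp G : ℝ) / (cc G : ℝ) ≤ (n : ℝ) ^ 2 / 16 + 3 := by
    rw [div_le_iff₀ hpos]; exact h2
  have h4 : (0 : ℝ) < c - 1 / 16 := by linarith
  rw [div_lt_iff₀ h4] at hN
  have h5 : (N : ℝ) + 1 ≤ n := by exact_mod_cast hn
  have h6 : (1 : ℝ) ≤ (n : ℝ) := by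
    have : (0 : ℝ) ≤ N := Nat.cast_nonneg N
    linarith
  have h7 : (n : ℝ) ≤ (n : ℝ) ^ 2 := by nlinarith
  have h8 : (N : ℝ) * (c - 1 / 16) ≤ (n : ℝ) ^ 2 * (c - 1 / 16) :=
    mul_le_mul_of_nonneg_right (by linarith) h4.le
  linarith

theorem main (hE : EGP) (hT2 : Two) (hT3 : Three) : Main := by
  refine ⟨fun n G hG => (main_bound hE hT2 hT3 n G hG).2, main_lim hE hT2 hT3, ?_⟩
  apply Real.sSup_le
  · rintro c ⟨_, hc⟩
    exact main_lim hE hT2 hT3 c hc
  · norm_num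

end sH

end proofs

/-- **`c* ≤ 1/16`**: `cp(G) ≤ (n²/16 + 3) cc(G)` for every graph with an edge. -/
theorem result :
    (∀ (n : ℕ) (G : SimpleGraph (Fin n)), G ≠ ⊥ →
      (cp G : ℝ) ≤ ((n : ℝ) ^ 2 / 16 + 3) * (cc G : ℝ)) ∧
    (∀ c : ℝ, (∀ N : ℕ, ∃ n : ℕ, N ≤ n ∧ ∃ G : SimpleGraph (Fin n), G ≠ ⊥ ∧
      (cp G : ℝ) / (cc G : ℝ) > c * (n : ℝ) ^ 2) → c ≤ 1 / 16) ∧
    cStar ≤ 1 / 16 :=
  main (egp matchLem extend) (two labelLem) (three (threeOrd labelLem countLem ineq))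

end Pool.Agent.Results.MP_10f644_co.UpperBound16
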